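import Pool.Agent.H65.CF.C4.S1
import Pool.Agent.H65.CF.C4.S2
import Pool.Agent.H65.CF.C4.S3
import Pool.Agent.H65.CF.C4.S4
import Pool.Agent.H65.CF.C4.S5
import Pool.Agent.H65.CF.C4.Certs
import Pool.Agent.H65.CF.Lst

/-!
# The rows give the facts about the pairs
-/

set_option autoImplicit false

namespace Pool.Agent.H65.CF.C4

open Pool.Agent.H65.CE (Seq Good)

theorem gu113 (X : ℤ → Bool) (hX : Seq 113 4 X) : Good 113 4 X :=
  good_of_all 113 4 240 240 488 60 120 4 3 24 false vu113 wu113 Lu113 (by norm_num) (by norm_num)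
    (by norm_num) (by norm_num) (by norm_num) oku113 (k1a 2 0) (k1b 22 0)
    (fun _ => lenu113.symm) (fun h => absurd h (by decide)) X hX

theorem gu115 (X : ℤ → Bool) (hX : Seq 115 4 X) : Good 115 4 X :=
  good_of_all 115 4 240 240 488 60 120 4 3 24 false vu115 wu115 Lu115 (by norm_num) (by norm_num)
    (by norm_num) (by norm_num) (by norm_num) oku115 (k7a 1 0) (k3b 23 0)
    (fun _ => lenu115.symm) (fun h => absurd h (by decide)) X hX

theorem gu117 (X : ℤ → Bool) (hX : Seq 117 4 X) : Good 117 4 X :=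
  good_of_all 117 4 240 240 488 60 120 4 3 24 false vu117 wu117 Lu117 (by norm_num) (by norm_num)
    (by norm_num) (by norm_num) (by norm_num) oku117 (k1a 2 0) (k1b 22 0)
    (fun _ => lenu117.symm) (fun h => absurd h (by decide)) X hX

theorem gu119 (X : ℤ → Bool) (hX : Seq 119 4 X) : Good 119 4 X :=
  good_of_all 119 4 240 240 488 60 120 4 3 24 false vu119 wu119 Lu119 (by norm_num) (by norm_num)
    (by norm_num) (by norm_num) (by norm_num) oku119 (k7a 1 0) (k3b 23 0)
    (fun _ => lenu119.symm) (fun h => absurd h (by decide)) X hX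

theorem gu121 (X : ℤ → Bool) (hX : Seq 121 4 X) : Good 121 4 X :=
  good_of_all 121 4 240 240 488 60 120 4 3 24 false vu121 wu121 Lu121 (by norm_num) (by norm_num)
    (by norm_num) (by norm_num) (by norm_num) oku121 (k1a 2 0) (k1b 22 0)
    (fun _ => lenu121.symm) (fun h => absurd h (by decide)) X hX

theorem gu123 (X : ℤ → Bool) (hX : Seq 123 4 X) : Good 123 4 X :=
  good_of_all 123 4 240 240 488 60 120 4 3 24 false vu123 wu123 Lu123 (by norm_num) (by norm_num)
    (by norm_num) (by norm_num) (by norm_num) oku123 (k7a 1 0) (k3b 23 0)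
    (fun _ => lenu123.symm) (fun h => absurd h (by decide)) X hX

theorem gu125 (X : ℤ → Bool) (hX : Seq 125 4 X) : Good 125 4 X :=
  good_of_all 125 4 240 240 488 60 120 4 3 24 false vu125 wu125 Lu125 (by norm_num) (by norm_num)
    (by norm_num) (by norm_num) (by norm_num) oku125 (k1a 2 0) (k1b 22 0)
    (fun _ => lenu125.symm) (fun h => absurd h (by decide)) X hX

theorem gu127 (X : ℤ → Bool) (hX : Seq 127 4 X) : Good 127 4 X :=
  good_of_all 127 4 240 240 488 60 120 4 3 24 false vu127 wu127 Lu127 (by norm_num) (by norm_num)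
    (by norm_num) (by norm_num) (by norm_num) oku127 (k7a 1 0) (k3b 23 0)
    (fun _ => lenu127.symm) (fun h => absurd h (by decide)) X hX

theorem gu129 (X : ℤ → Bool) (hX : Seq 129 4 X) : Good 129 4 X :=
  good_of_all 129 4 240 240 488 60 120 4 3 24 false vu129 wu129 Lu129 (by norm_num) (by norm_num)
    (by norm_num) (by norm_num) (by norm_num) oku129 (k1a 2 0) (k1b 22 0)
    (fun _ => lenu129.symm) (fun h => absurd h (by decide)) X hX

theorem gu131 (X : ℤ → Bool) (hX : Seq 131 4 X) : Good 131 4 X :=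
  good_of_all 131 4 240 240 488 60 120 4 3 24 false vu131 wu131 Lu131 (by norm_num) (by norm_num)
    (by norm_num) (by norm_num) (by norm_num) oku131 (k7a 1 0) (k3b 23 0)
    (fun _ => lenu131.symm) (fun h => absurd h (by decide)) X hX

theorem gu133 (X : ℤ → Bool) (hX : Seq 133 4 X) : Good 133 4 X :=
  good_of_all 133 4 240 240 488 60 120 4 3 24 false vu133 wu133 Lu133 (by norm_num) (by norm_num)
    (by norm_num) (by norm_num) (by norm_num) oku133 (k1a 2 0) (k1b 22 0)
    (fun _ => lenu133.symm) (fun h => absurd h (by decide)) X hX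

theorem gu135 (X : ℤ → Bool) (hX : Seq 135 4 X) : Good 135 4 X :=
  good_of_all 135 4 240 240 488 60 120 4 3 24 false vu135 wu135 Lu135 (by norm_num) (by norm_num)
    (by norm_num) (by norm_num) (by norm_num) oku135 (k7a 1 0) (k3b 23 0)
    (fun _ => lenu135.symm) (fun h => absurd h (by decide)) X hX

theorem gu137 (X : ℤ → Bool) (hX : Seq 137 4 X) : Good 137 4 X :=
  good_of_all 137 4 240 240 488 60 120 4 3 24 false vu137 wu137 Lu137 (by norm_num) (by norm_num)
    (by norm_num) (by norm_num) (by norm_num) oku137 (k1a 2 0) (k1b 22 0)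
    (fun _ => lenu137.symm) (fun h => absurd h (by decide)) X hX

theorem gu139 (X : ℤ → Bool) (hX : Seq 139 4 X) : Good 139 4 X :=
  good_of_all 139 4 240 240 488 60 120 4 3 24 false vu139 wu139 Lu139 (by norm_num) (by norm_num)
    (by norm_num) (by norm_num) (by norm_num) oku139 (k7a 1 0) (k3b 23 0)
    (fun _ => lenu139.symm) (fun h => absurd h (by decide)) X hX

theorem gu141 (X : ℤ → Bool) (hX : Seq 141 4 X) : Good 141 4 X :=
  good_of_all 141 4 240 240 488 60 120 4 3 24 false vu141 wu141 Lu141 (by norm_num) (by norm_num)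
    (by norm_num) (by norm_num) (by norm_num) oku141 (k1a 2 0) (k1b 22 0)
    (fun _ => lenu141.symm) (fun h => absurd h (by decide)) X hX

theorem gu143 (X : ℤ → Bool) (hX : Seq 143 4 X) : Good 143 4 X :=
  good_of_all 143 4 240 240 488 80 120 4 3 24 false vu143 wu143 Lu143 (by norm_num) (by norm_num)
    (by norm_num) (by norm_num) (by norm_num) oku143 (k7a 1 0) (k3b 23 0)
    (fun _ => lenu143.symm) (fun h => absurd h (by decide)) X hX

theorem gu145 (X : ℤ → Bool) (hX : Seq 145 4 X) : Good 145 4 X :=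
  good_of_all 145 4 240 240 488 60 120 4 3 24 false vu145 wu145 Lu145 (by norm_num) (by norm_num)
    (by norm_num) (by norm_num) (by norm_num) oku145 (k1a 2 0) (k1b 22 0)
    (fun _ => lenu145.symm) (fun h => absurd h (by decide)) X hX

theorem gu147 (X : ℤ → Bool) (hX : Seq 147 4 X) : Good 147 4 X :=
  good_of_all 147 4 240 240 488 60 120 4 3 24 false vu147 wu147 Lu147 (by norm_num) (by norm_num)
    (by norm_num) (by norm_num) (by norm_num) oku147 (k7a 1 0) (k3b 23 0)
    (fun _ => lenu147.symm) (fun h => absurd h (by decide)) X hX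

theorem gu149 (X : ℤ → Bool) (hX : Seq 149 4 X) : Good 149 4 X :=
  good_of_all 149 4 240 240 488 60 120 4 3 24 false vu149 wu149 Lu149 (by norm_num) (by norm_num)
    (by norm_num) (by norm_num) (by norm_num) oku149 (k1a 2 0) (k1b 22 0)
    (fun _ => lenu149.symm) (fun h => absurd h (by decide)) X hX

theorem gu151 (X : ℤ → Bool) (hX : Seq 151 4 X) : Good 151 4 X :=
  good_of_all 151 4 240 240 488 60 120 4 3 24 false vu151 wu151 Lu151 (by norm_num) (by norm_num)
    (by norm_num) (by norm_num) (by norm_num) oku151 (k7a 1 0) (k3b 23 0)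
    (fun _ => lenu151.symm) (fun h => absurd h (by decide)) X hX

theorem gu153 (X : ℤ → Bool) (hX : Seq 153 4 X) : Good 153 4 X :=
  good_of_all 153 4 240 240 488 60 120 4 3 24 false vu153 wu153 Lu153 (by norm_num) (by norm_num)
    (by norm_num) (by norm_num) (by norm_num) oku153 (k1a 2 0) (k1b 22 0)
    (fun _ => lenu153.symm) (fun h => absurd h (by decide)) X hX

theorem gu155 (X : ℤ → Bool) (hX : Seq 155 4 X) : Good 155 4 X :=
  good_of_all 155 4 240 240 488 60 120 4 3 24 false vu155 wu155 Lu155 (by norm_num) (by norm_num)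
    (by norm_num) (by norm_num) (by norm_num) oku155 (k7a 1 0) (k3b 23 0)
    (fun _ => lenu155.symm) (fun h => absurd h (by decide)) X hX

theorem gu157 (X : ℤ → Bool) (hX : Seq 157 4 X) : Good 157 4 X :=
  good_of_all 157 4 240 240 488 60 120 4 3 24 false vu157 wu157 Lu157 (by norm_num) (by norm_num)
    (by norm_num) (by norm_num) (by norm_num) oku157 (k1a 2 0) (k1b 22 0)
    (fun _ => lenu157.symm) (fun h => absurd h (by decide)) X hX

theorem gu159 (X : ℤ → Bool) (hX : Seq 159 4 X) : Good 159 4 X :=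
  good_of_all 159 4 240 240 488 60 120 4 3 24 false vu159 wu159 Lu159 (by norm_num) (by norm_num)
    (by norm_num) (by norm_num) (by norm_num) oku159 (k7a 1 0) (k3b 23 0)
    (fun _ => lenu159.symm) (fun h => absurd h (by decide)) X hX

theorem gu161 (X : ℤ → Bool) (hX : Seq 161 4 X) : Good 161 4 X :=
  good_of_all 161 4 240 240 488 60 120 4 3 24 false vu161 wu161 Lu161 (by norm_num) (by norm_num)
    (by norm_num) (by norm_num) (by norm_num) oku161 (k1a 2 0) (k1b 22 0)
    (fun _ => lenu161.symm) (fun h => absurd h (by decide)) X hX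

theorem gu163 (X : ℤ → Bool) (hX : Seq 163 4 X) : Good 163 4 X :=
  good_of_all 163 4 240 240 488 60 120 4 3 24 false vu163 wu163 Lu163 (by norm_num) (by norm_num)
    (by norm_num) (by norm_num) (by norm_num) oku163 (k7a 1 0) (k3b 23 0)
    (fun _ => lenu163.symm) (fun h => absurd h (by decide)) X hX

theorem gu165 (X : ℤ → Bool) (hX : Seq 165 4 X) : Good 165 4 X :=
  good_of_all 165 4 240 240 488 60 120 4 3 24 false vu165 wu165 Lu165 (by norm_num) (by norm_num)
    (by norm_num) (by norm_num) (by norm_num) oku165 (k1a 2 0) (k1b 22 0)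
    (fun _ => lenu165.symm) (fun h => absurd h (by decide)) X hX

theorem gu167 (X : ℤ → Bool) (hX : Seq 167 4 X) : Good 167 4 X :=
  good_of_all 167 4 240 240 488 60 120 4 3 24 false vu167 wu167 Lu167 (by norm_num) (by norm_num)
    (by norm_num) (by norm_num) (by norm_num) oku167 (k7a 1 0) (k3b 23 0)
    (fun _ => lenu167.symm) (fun h => absurd h (by decide)) X hX

theorem gu169 (X : ℤ → Bool) (hX : Seq 169 4 X) : Good 169 4 X :=
  good_of_all 169 4 240 240 488 60 120 4 3 24 false vu169 wu169 Lu169 (by norm_num) (by norm_num)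
    (by norm_num) (by norm_num) (by norm_num) oku169 (k1a 2 0) (k1b 22 0)
    (fun _ => lenu169.symm) (fun h => absurd h (by decide)) X hX

theorem gu171 (X : ℤ → Bool) (hX : Seq 171 4 X) : Good 171 4 X :=
  good_of_all 171 4 240 240 488 60 120 4 3 24 false vu171 wu171 Lu171 (by norm_num) (by norm_num)
    (by norm_num) (by norm_num) (by norm_num) oku171 (k7a 1 0) (k3b 23 0)
    (fun _ => lenu171.symm) (fun h => absurd h (by decide)) X hX

theorem gu173 (X : ℤ → Bool) (hX : Seq 173 4 X) : Good 173 4 X :=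
  good_of_all 173 4 240 240 488 60 120 4 3 24 false vu173 wu173 Lu173 (by norm_num) (by norm_num)
    (by norm_num) (by norm_num) (by norm_num) oku173 (k1a 2 0) (k1b 22 0)
    (fun _ => lenu173.symm) (fun h => absurd h (by decide)) X hX

theorem gu175 (X : ℤ → Bool) (hX : Seq 175 4 X) : Good 175 4 X :=
  good_of_all 175 4 240 240 488 60 120 4 3 24 false vu175 wu175 Lu175 (by norm_num) (by norm_num)
    (by norm_num) (by norm_num) (by norm_num) oku175 (k7a 1 0) (k3b 23 0)
    (fun _ => lenu175.symm) (fun h => absurd h (by decide)) X hX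

theorem gu177 (X : ℤ → Bool) (hX : Seq 177 4 X) : Good 177 4 X :=
  good_of_all 177 4 240 240 488 60 120 4 3 24 false vu177 wu177 Lu177 (by norm_num) (by norm_num)
    (by norm_num) (by norm_num) (by norm_num) oku177 (k1a 2 0) (k1b 22 0)
    (fun _ => lenu177.symm) (fun h => absurd h (by decide)) X hX

theorem gu179 (X : ℤ → Bool) (hX : Seq 179 4 X) : Good 179 4 X :=
  good_of_all 179 4 240 240 488 60 120 4 3 24 false vu179 wu179 Lu179 (by norm_num) (by norm_num)
    (by norm_num) (by norm_num) (by norm_num) oku179 (k7a 1 0) (k3b 23 0)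
    (fun _ => lenu179.symm) (fun h => absurd h (by decide)) X hX

theorem gu181 (X : ℤ → Bool) (hX : Seq 181 4 X) : Good 181 4 X :=
  good_of_all 181 4 240 240 488 60 120 4 3 24 false vu181 wu181 Lu181 (by norm_num) (by norm_num)
    (by norm_num) (by norm_num) (by norm_num) oku181 (k1a 2 0) (k1b 22 0)
    (fun _ => lenu181.symm) (fun h => absurd h (by decide)) X hX

theorem gu183 (X : ℤ → Bool) (hX : Seq 183 4 X) : Good 183 4 X :=
  good_of_all 183 4 240 240 488 60 120 4 3 24 false vu183 wu183 Lu183 (by norm_num) (by norm_num)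
    (by norm_num) (by norm_num) (by norm_num) oku183 (k7a 1 0) (k3b 23 0)
    (fun _ => lenu183.symm) (fun h => absurd h (by decide)) X hX

theorem gu185 (X : ℤ → Bool) (hX : Seq 185 4 X) : Good 185 4 X :=
  good_of_all 185 4 240 240 488 60 120 4 3 24 false vu185 wu185 Lu185 (by norm_num) (by norm_num)
    (by norm_num) (by norm_num) (by norm_num) oku185 (k1a 2 0) (k1b 22 0)
    (fun _ => lenu185.symm) (fun h => absurd h (by decide)) X hX

theorem gu187 (X : ℤ → Bool) (hX : Seq 187 4 X) : Good 187 4 X :=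
  good_of_all 187 4 240 240 488 60 120 4 3 24 false vu187 wu187 Lu187 (by norm_num) (by norm_num)
    (by norm_num) (by norm_num) (by norm_num) oku187 (k7a 1 0) (k3b 23 0)
    (fun _ => lenu187.symm) (fun h => absurd h (by decide)) X hX

theorem gu189 (X : ℤ → Bool) (hX : Seq 189 4 X) : Good 189 4 X :=
  good_of_all 189 4 240 240 488 60 120 4 3 24 false vu189 wu189 Lu189 (by norm_num) (by norm_num)
    (by norm_num) (by norm_num) (by norm_num) oku189 (k1a 2 0) (k1b 22 0)
    (fun _ => lenu189.symm) (fun h => absurd h (by decide)) X hX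

theorem gu191 (X : ℤ → Bool) (hX : Seq 191 4 X) : Good 191 4 X :=
  good_of_all 191 4 240 240 488 60 120 4 3 24 false vu191 wu191 Lu191 (by norm_num) (by norm_num)
    (by norm_num) (by norm_num) (by norm_num) oku191 (k7a 1 0) (k3b 23 0)
    (fun _ => lenu191.symm) (fun h => absurd h (by decide)) X hX

theorem gu193 (X : ℤ → Bool) (hX : Seq 193 4 X) : Good 193 4 X :=
  good_of_all 193 4 240 240 488 60 120 4 3 24 false vu193 wu193 Lu193 (by norm_num) (by norm_num)
    (by norm_num) (by norm_num) (by norm_num) oku193 (k1a 2 0) (k1b 22 0)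
    (fun _ => lenu193.symm) (fun h => absurd h (by decide)) X hX

theorem gu195 (X : ℤ → Bool) (hX : Seq 195 4 X) : Good 195 4 X :=
  good_of_all 195 4 240 240 488 60 120 4 3 24 false vu195 wu195 Lu195 (by norm_num) (by norm_num)
    (by norm_num) (by norm_num) (by norm_num) oku195 (k7a 1 0) (k3b 23 0)
    (fun _ => lenu195.symm) (fun h => absurd h (by decide)) X hX

theorem gu197 (X : ℤ → Bool) (hX : Seq 197 4 X) : Good 197 4 X :=
  good_of_all 197 4 240 240 488 60 120 4 3 24 false vu197 wu197 Lu197 (by norm_num) (by norm_num)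
    (by norm_num) (by norm_num) (by norm_num) oku197 (k1a 2 0) (k1b 22 0)
    (fun _ => lenu197.symm) (fun h => absurd h (by decide)) X hX

theorem gu199 (X : ℤ → Bool) (hX : Seq 199 4 X) : Good 199 4 X :=
  good_of_all 199 4 240 240 488 60 120 4 3 24 false vu199 wu199 Lu199 (by norm_num) (by norm_num)
    (by norm_num) (by norm_num) (by norm_num) oku199 (k7a 1 0) (k3b 23 0)
    (fun _ => lenu199.symm) (fun h => absurd h (by decide)) X hX

theorem gu201 (X : ℤ → Bool) (hX : Seq 201 4 X) : Good 201 4 X :=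
  good_of_all 201 4 240 240 488 60 120 4 3 24 false vu201 wu201 Lu201 (by norm_num) (by norm_num)
    (by norm_num) (by norm_num) (by norm_num) oku201 (k1a 2 0) (k1b 22 0)
    (fun _ => lenu201.symm) (fun h => absurd h (by decide)) X hX

theorem gu203 (X : ℤ → Bool) (hX : Seq 203 4 X) : Good 203 4 X :=
  good_of_all 203 4 240 240 488 60 120 4 3 24 false vu203 wu203 Lu203 (by norm_num) (by norm_num)
    (by norm_num) (by norm_num) (by norm_num) oku203 (k7a 1 0) (k3b 23 0)
    (fun _ => lenu203.symm) (fun h => absurd h (by decide)) X hX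

theorem gu205 (X : ℤ → Bool) (hX : Seq 205 4 X) : Good 205 4 X :=
  good_of_all 205 4 240 240 488 60 120 4 3 24 false vu205 wu205 Lu205 (by norm_num) (by norm_num)
    (by norm_num) (by norm_num) (by norm_num) oku205 (k1a 2 0) (k1b 22 0)
    (fun _ => lenu205.symm) (fun h => absurd h (by decide)) X hX

theorem gu207 (X : ℤ → Bool) (hX : Seq 207 4 X) : Good 207 4 X :=
  good_of_all 207 4 240 240 488 60 120 4 3 24 false vu207 wu207 Lu207 (by norm_num) (by norm_num)
    (by norm_num) (by norm_num) (by norm_num) oku207 (k7a 1 0) (k3b 23 0)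
    (fun _ => lenu207.symm) (fun h => absurd h (by decide)) X hX

end Pool.Agent.H65.CF.C4
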