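import Pool.Agent.H65.CF.C4.S10
import Pool.Agent.H65.CF.C4.S5
import Pool.Agent.H65.CF.C4.S6
import Pool.Agent.H65.CF.C4.S7
import Pool.Agent.H65.CF.C4.S8
import Pool.Agent.H65.CF.C4.S9
import Pool.Agent.H65.CF.C4.Certs
import Pool.Agent.H65.CF.Lst

/-!
# The rows give the facts about the pairs
-/

set_option autoImplicit false

namespace Pool.Agent.H65.CF.C4

open Pool.Agent.H65.CE (Seq Good)

theorem gu209 (X : ℤ → Bool) (hX : Seq 209 4 X) : Good 209 4 X :=
  good_of_all 209 4 240 240 488 60 120 4 3 24 false vu209 wu209 Lu209 (by norm_num) (by norm_num)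
    (by norm_num) (by norm_num) (by norm_num) oku209 (k1a 2 0) (k1b 22 0)
    (fun _ => lenu209.symm) (fun h => absurd h (by decide)) X hX

theorem gu211 (X : ℤ → Bool) (hX : Seq 211 4 X) : Good 211 4 X :=
  good_of_all 211 4 240 240 488 60 120 4 3 24 false vu211 wu211 Lu211 (by norm_num) (by norm_num)
    (by norm_num) (by norm_num) (by norm_num) oku211 (k7a 1 0) (k3b 23 0)
    (fun _ => lenu211.symm) (fun h => absurd h (by decide)) X hX

theorem gu213 (X : ℤ → Bool) (hX : Seq 213 4 X) : Good 213 4 X :=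
  good_of_all 213 4 240 240 488 60 120 4 3 24 false vu213 wu213 Lu213 (by norm_num) (by norm_num)
    (by norm_num) (by norm_num) (by norm_num) oku213 (k1a 2 0) (k1b 22 0)
    (fun _ => lenu213.symm) (fun h => absurd h (by decide)) X hX

theorem gu215 (X : ℤ → Bool) (hX : Seq 215 4 X) : Good 215 4 X :=
  good_of_all 215 4 240 240 488 60 120 4 3 24 false vu215 wu215 Lu215 (by norm_num) (by norm_num)
    (by norm_num) (by norm_num) (by norm_num) oku215 (k7a 1 0) (k3b 23 0)
    (fun _ => lenu215.symm) (fun h => absurd h (by decide)) X hX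

theorem gu217 (X : ℤ → Bool) (hX : Seq 217 4 X) : Good 217 4 X :=
  good_of_all 217 4 240 240 488 60 120 4 3 24 false vu217 wu217 Lu217 (by norm_num) (by norm_num)
    (by norm_num) (by norm_num) (by norm_num) oku217 (k1a 2 0) (k1b 22 0)
    (fun _ => lenu217.symm) (fun h => absurd h (by decide)) X hX

theorem gu219 (X : ℤ → Bool) (hX : Seq 219 4 X) : Good 219 4 X :=
  good_of_all 219 4 240 240 488 60 120 4 3 24 false vu219 wu219 Lu219 (by norm_num) (by norm_num)
    (by norm_num) (by norm_num) (by norm_num) oku219 (k7a 1 0) (k3b 23 0)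
    (fun _ => lenu219.symm) (fun h => absurd h (by decide)) X hX

theorem gu221 (X : ℤ → Bool) (hX : Seq 221 4 X) : Good 221 4 X :=
  good_of_all 221 4 240 240 488 60 120 4 3 24 false vu221 wu221 Lu221 (by norm_num) (by norm_num)
    (by norm_num) (by norm_num) (by norm_num) oku221 (k1a 2 0) (k1b 22 0)
    (fun _ => lenu221.symm) (fun h => absurd h (by decide)) X hX

theorem gu223 (X : ℤ → Bool) (hX : Seq 223 4 X) : Good 223 4 X :=
  good_of_all 223 4 240 240 488 60 120 4 3 24 false vu223 wu223 Lu223 (by norm_num) (by norm_num)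
    (by norm_num) (by norm_num) (by norm_num) oku223 (k7a 1 0) (k3b 23 0)
    (fun _ => lenu223.symm) (fun h => absurd h (by decide)) X hX

theorem gu225 (X : ℤ → Bool) (hX : Seq 225 4 X) : Good 225 4 X :=
  good_of_all 225 4 240 240 488 60 120 4 3 24 false vu225 wu225 Lu225 (by norm_num) (by norm_num)
    (by norm_num) (by norm_num) (by norm_num) oku225 (k1a 2 0) (k1b 22 0)
    (fun _ => lenu225.symm) (fun h => absurd h (by decide)) X hX

theorem gu227 (X : ℤ → Bool) (hX : Seq 227 4 X) : Good 227 4 X :=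
  good_of_all 227 4 240 240 488 60 120 4 3 24 false vu227 wu227 Lu227 (by norm_num) (by norm_num)
    (by norm_num) (by norm_num) (by norm_num) oku227 (k7a 1 0) (k3b 23 0)
    (fun _ => lenu227.symm) (fun h => absurd h (by decide)) X hX

theorem gu229 (X : ℤ → Bool) (hX : Seq 229 4 X) : Good 229 4 X :=
  good_of_all 229 4 240 240 488 60 120 4 3 24 false vu229 wu229 Lu229 (by norm_num) (by norm_num)
    (by norm_num) (by norm_num) (by norm_num) oku229 (k1a 2 0) (k1b 22 0)
    (fun _ => lenu229.symm) (fun h => absurd h (by decide)) X hX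

theorem gu231 (X : ℤ → Bool) (hX : Seq 231 4 X) : Good 231 4 X :=
  good_of_all 231 4 240 240 488 60 120 4 3 24 false vu231 wu231 Lu231 (by norm_num) (by norm_num)
    (by norm_num) (by norm_num) (by norm_num) oku231 (k7a 1 0) (k3b 23 0)
    (fun _ => lenu231.symm) (fun h => absurd h (by decide)) X hX

theorem gu233 (X : ℤ → Bool) (hX : Seq 233 4 X) : Good 233 4 X :=
  good_of_all 233 4 240 240 488 60 120 4 3 24 false vu233 wu233 Lu233 (by norm_num) (by norm_num)
    (by norm_num) (by norm_num) (by norm_num) oku233 (k1a 2 0) (k1b 22 0)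
    (fun _ => lenu233.symm) (fun h => absurd h (by decide)) X hX

theorem gu235 (X : ℤ → Bool) (hX : Seq 235 4 X) : Good 235 4 X :=
  good_of_all 235 4 240 240 488 60 120 4 3 24 false vu235 wu235 Lu235 (by norm_num) (by norm_num)
    (by norm_num) (by norm_num) (by norm_num) oku235 (k7a 1 0) (k3b 23 0)
    (fun _ => lenu235.symm) (fun h => absurd h (by decide)) X hX

theorem gu237 (X : ℤ → Bool) (hX : Seq 237 4 X) : Good 237 4 X :=
  good_of_all 237 4 240 240 488 60 120 4 3 24 false vu237 wu237 Lu237 (by norm_num) (by norm_num)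
    (by norm_num) (by norm_num) (by norm_num) oku237 (k1a 2 0) (k1b 22 0)
    (fun _ => lenu237.symm) (fun h => absurd h (by decide)) X hX

theorem gu239 (X : ℤ → Bool) (hX : Seq 239 4 X) : Good 239 4 X :=
  good_of_all 239 4 240 240 488 60 120 4 3 24 false vu239 wu239 Lu239 (by norm_num) (by norm_num)
    (by norm_num) (by norm_num) (by norm_num) oku239 (k7a 1 0) (k3b 23 0)
    (fun _ => lenu239.symm) (fun h => absurd h (by decide)) X hX

theorem gu241 (X : ℤ → Bool) (hX : Seq 241 4 X) : Good 241 4 X :=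
  good_of_all 241 4 240 240 488 60 120 4 3 24 false vu241 wu241 Lu241 (by norm_num) (by norm_num)
    (by norm_num) (by norm_num) (by norm_num) oku241 (k1a 2 0) (k1b 22 0)
    (fun _ => lenu241.symm) (fun h => absurd h (by decide)) X hX

theorem gu243 (X : ℤ → Bool) (hX : Seq 243 4 X) : Good 243 4 X :=
  good_of_all 243 4 240 240 488 60 120 4 3 24 false vu243 wu243 Lu243 (by norm_num) (by norm_num)
    (by norm_num) (by norm_num) (by norm_num) oku243 (k7a 1 0) (k3b 23 0)
    (fun _ => lenu243.symm) (fun h => absurd h (by decide)) X hX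

theorem gu245 (X : ℤ → Bool) (hX : Seq 245 4 X) : Good 245 4 X :=
  good_of_all 245 4 240 240 488 60 120 4 3 24 false vu245 wu245 Lu245 (by norm_num) (by norm_num)
    (by norm_num) (by norm_num) (by norm_num) oku245 (k1a 2 0) (k1b 22 0)
    (fun _ => lenu245.symm) (fun h => absurd h (by decide)) X hX

theorem gu247 (X : ℤ → Bool) (hX : Seq 247 4 X) : Good 247 4 X :=
  good_of_all 247 4 240 240 488 60 120 4 3 24 false vu247 wu247 Lu247 (by norm_num) (by norm_num)
    (by norm_num) (by norm_num) (by norm_num) oku247 (k7a 1 0) (k3b 23 0)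
    (fun _ => lenu247.symm) (fun h => absurd h (by decide)) X hX

theorem gu249 (X : ℤ → Bool) (hX : Seq 249 4 X) : Good 249 4 X :=
  good_of_all 249 4 240 240 488 60 120 4 3 24 false vu249 wu249 Lu249 (by norm_num) (by norm_num)
    (by norm_num) (by norm_num) (by norm_num) oku249 (k1a 2 0) (k1b 22 0)
    (fun _ => lenu249.symm) (fun h => absurd h (by decide)) X hX

theorem gu251 (X : ℤ → Bool) (hX : Seq 251 4 X) : Good 251 4 X :=
  good_of_all 251 4 240 240 488 60 120 4 3 24 false vu251 wu251 Lu251 (by norm_num) (by norm_num)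
    (by norm_num) (by norm_num) (by norm_num) oku251 (k7a 1 0) (k3b 23 0)
    (fun _ => lenu251.symm) (fun h => absurd h (by decide)) X hX

theorem gu253 (X : ℤ → Bool) (hX : Seq 253 4 X) : Good 253 4 X :=
  good_of_all 253 4 240 240 488 60 120 4 3 24 false vu253 wu253 Lu253 (by norm_num) (by norm_num)
    (by norm_num) (by norm_num) (by norm_num) oku253 (k1a 2 0) (k1b 22 0)
    (fun _ => lenu253.symm) (fun h => absurd h (by decide)) X hX

theorem gu255 (X : ℤ → Bool) (hX : Seq 255 4 X) : Good 255 4 X :=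
  good_of_all 255 4 240 240 488 60 120 4 3 24 false vu255 wu255 Lu255 (by norm_num) (by norm_num)
    (by norm_num) (by norm_num) (by norm_num) oku255 (k7a 1 0) (k3b 23 0)
    (fun _ => lenu255.symm) (fun h => absurd h (by decide)) X hX

theorem gu257 (X : ℤ → Bool) (hX : Seq 257 4 X) : Good 257 4 X :=
  good_of_all 257 4 240 240 488 60 120 4 3 24 false vu257 wu257 Lu257 (by norm_num) (by norm_num)
    (by norm_num) (by norm_num) (by norm_num) oku257 (k1a 2 0) (k1b 22 0)
    (fun _ => lenu257.symm) (fun h => absurd h (by decide)) X hX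

theorem gu259 (X : ℤ → Bool) (hX : Seq 259 4 X) : Good 259 4 X :=
  good_of_all 259 4 240 240 488 60 120 4 3 24 false vu259 wu259 Lu259 (by norm_num) (by norm_num)
    (by norm_num) (by norm_num) (by norm_num) oku259 (k7a 1 0) (k3b 23 0)
    (fun _ => lenu259.symm) (fun h => absurd h (by decide)) X hX

theorem gu261 (X : ℤ → Bool) (hX : Seq 261 4 X) : Good 261 4 X :=
  good_of_all 261 4 240 240 488 60 120 4 3 24 false vu261 wu261 Lu261 (by norm_num) (by norm_num)
    (by norm_num) (by norm_num) (by norm_num) oku261 (k1a 2 0) (k1b 22 0)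
    (fun _ => lenu261.symm) (fun h => absurd h (by decide)) X hX

theorem gu263 (X : ℤ → Bool) (hX : Seq 263 4 X) : Good 263 4 X :=
  good_of_all 263 4 240 240 488 60 120 4 3 24 false vu263 wu263 Lu263 (by norm_num) (by norm_num)
    (by norm_num) (by norm_num) (by norm_num) oku263 (k7a 1 0) (k3b 23 0)
    (fun _ => lenu263.symm) (fun h => absurd h (by decide)) X hX

theorem gu265 (X : ℤ → Bool) (hX : Seq 265 4 X) : Good 265 4 X :=
  good_of_all 265 4 240 240 488 60 120 4 3 24 false vu265 wu265 Lu265 (by norm_num) (by norm_num)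
    (by norm_num) (by norm_num) (by norm_num) oku265 (k1a 2 0) (k1b 22 0)
    (fun _ => lenu265.symm) (fun h => absurd h (by decide)) X hX

theorem gu267 (X : ℤ → Bool) (hX : Seq 267 4 X) : Good 267 4 X :=
  good_of_all 267 4 240 240 488 60 120 4 3 24 false vu267 wu267 Lu267 (by norm_num) (by norm_num)
    (by norm_num) (by norm_num) (by norm_num) oku267 (k7a 1 0) (k3b 23 0)
    (fun _ => lenu267.symm) (fun h => absurd h (by decide)) X hX

theorem gu269 (X : ℤ → Bool) (hX : Seq 269 4 X) : Good 269 4 X :=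
  good_of_all 269 4 240 240 488 60 120 4 3 24 false vu269 wu269 Lu269 (by norm_num) (by norm_num)
    (by norm_num) (by norm_num) (by norm_num) oku269 (k1a 2 0) (k1b 22 0)
    (fun _ => lenu269.symm) (fun h => absurd h (by decide)) X hX

theorem gu271 (X : ℤ → Bool) (hX : Seq 271 4 X) : Good 271 4 X :=
  good_of_all 271 4 240 240 488 60 120 4 3 24 false vu271 wu271 Lu271 (by norm_num) (by norm_num)
    (by norm_num) (by norm_num) (by norm_num) oku271 (k7a 1 0) (k3b 23 0)
    (fun _ => lenu271.symm) (fun h => absurd h (by decide)) X hX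

theorem gu273 (X : ℤ → Bool) (hX : Seq 273 4 X) : Good 273 4 X :=
  good_of_all 273 4 240 240 488 60 120 4 3 24 false vu273 wu273 Lu273 (by norm_num) (by norm_num)
    (by norm_num) (by norm_num) (by norm_num) oku273 (k1a 2 0) (k1b 22 0)
    (fun _ => lenu273.symm) (fun h => absurd h (by decide)) X hX

theorem gu275 (X : ℤ → Bool) (hX : Seq 275 4 X) : Good 275 4 X :=
  good_of_all 275 4 240 240 488 60 120 4 3 24 false vu275 wu275 Lu275 (by norm_num) (by norm_num)
    (by norm_num) (by norm_num) (by norm_num) oku275 (k7a 1 0) (k3b 23 0)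
    (fun _ => lenu275.symm) (fun h => absurd h (by decide)) X hX

theorem gu277 (X : ℤ → Bool) (hX : Seq 277 4 X) : Good 277 4 X :=
  good_of_all 277 4 240 240 488 60 120 4 3 24 false vu277 wu277 Lu277 (by norm_num) (by norm_num)
    (by norm_num) (by norm_num) (by norm_num) oku277 (k1a 2 0) (k1b 22 0)
    (fun _ => lenu277.symm) (fun h => absurd h (by decide)) X hX

theorem gu279 (X : ℤ → Bool) (hX : Seq 279 4 X) : Good 279 4 X :=
  good_of_all 279 4 240 240 488 60 120 4 3 24 false vu279 wu279 Lu279 (by norm_num) (by norm_num)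
    (by norm_num) (by norm_num) (by norm_num) oku279 (k7a 1 0) (k3b 23 0)
    (fun _ => lenu279.symm) (fun h => absurd h (by decide)) X hX

theorem gu281 (X : ℤ → Bool) (hX : Seq 281 4 X) : Good 281 4 X :=
  good_of_all 281 4 240 240 488 60 120 4 3 24 false vu281 wu281 Lu281 (by norm_num) (by norm_num)
    (by norm_num) (by norm_num) (by norm_num) oku281 (k1a 2 0) (k1b 22 0)
    (fun _ => lenu281.symm) (fun h => absurd h (by decide)) X hX

theorem gu283 (X : ℤ → Bool) (hX : Seq 283 4 X) : Good 283 4 X :=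
  good_of_all 283 4 240 240 488 60 120 4 3 24 false vu283 wu283 Lu283 (by norm_num) (by norm_num)
    (by norm_num) (by norm_num) (by norm_num) oku283 (k7a 1 0) (k3b 23 0)
    (fun _ => lenu283.symm) (fun h => absurd h (by decide)) X hX

theorem gu285 (X : ℤ → Bool) (hX : Seq 285 4 X) : Good 285 4 X :=
  good_of_all 285 4 240 240 488 60 120 4 3 24 false vu285 wu285 Lu285 (by norm_num) (by norm_num)
    (by norm_num) (by norm_num) (by norm_num) oku285 (k1a 2 0) (k1b 22 0)
    (fun _ => lenu285.symm) (fun h => absurd h (by decide)) X hX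

theorem gu287 (X : ℤ → Bool) (hX : Seq 287 4 X) : Good 287 4 X :=
  good_of_all 287 4 240 240 488 60 120 4 3 24 false vu287 wu287 Lu287 (by norm_num) (by norm_num)
    (by norm_num) (by norm_num) (by norm_num) oku287 (k7a 1 0) (k3b 23 0)
    (fun _ => lenu287.symm) (fun h => absurd h (by decide)) X hX

theorem gu289 (X : ℤ → Bool) (hX : Seq 289 4 X) : Good 289 4 X :=
  good_of_all 289 4 240 240 488 60 120 4 3 24 false vu289 wu289 Lu289 (by norm_num) (by norm_num)
    (by norm_num) (by norm_num) (by norm_num) oku289 (k1a 2 0) (k1b 22 0)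
    (fun _ => lenu289.symm) (fun h => absurd h (by decide)) X hX

theorem gu291 (X : ℤ → Bool) (hX : Seq 291 4 X) : Good 291 4 X :=
  good_of_all 291 4 240 240 488 60 120 4 3 24 false vu291 wu291 Lu291 (by norm_num) (by norm_num)
    (by norm_num) (by norm_num) (by norm_num) oku291 (k7a 1 0) (k3b 23 0)
    (fun _ => lenu291.symm) (fun h => absurd h (by decide)) X hX

theorem gu293 (X : ℤ → Bool) (hX : Seq 293 4 X) : Good 293 4 X :=
  good_of_all 293 4 240 240 488 60 120 4 3 24 false vu293 wu293 Lu293 (by norm_num) (by norm_num)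
    (by norm_num) (by norm_num) (by norm_num) oku293 (k1a 2 0) (k1b 22 0)
    (fun _ => lenu293.symm) (fun h => absurd h (by decide)) X hX

theorem gu295 (X : ℤ → Bool) (hX : Seq 295 4 X) : Good 295 4 X :=
  good_of_all 295 4 240 240 488 60 120 4 3 24 false vu295 wu295 Lu295 (by norm_num) (by norm_num)
    (by norm_num) (by norm_num) (by norm_num) oku295 (k7a 1 0) (k3b 23 0)
    (fun _ => lenu295.symm) (fun h => absurd h (by decide)) X hX

theorem gu297 (X : ℤ → Bool) (hX : Seq 297 4 X) : Good 297 4 X :=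
  good_of_all 297 4 240 240 488 60 120 4 3 24 false vu297 wu297 Lu297 (by norm_num) (by norm_num)
    (by norm_num) (by norm_num) (by norm_num) oku297 (k1a 2 0) (k1b 22 0)
    (fun _ => lenu297.symm) (fun h => absurd h (by decide)) X hX

theorem gu299 (X : ℤ → Bool) (hX : Seq 299 4 X) : Good 299 4 X :=
  good_of_all 299 4 240 240 488 60 120 4 3 24 false vu299 wu299 Lu299 (by norm_num) (by norm_num)
    (by norm_num) (by norm_num) (by norm_num) oku299 (k7a 1 0) (k3b 23 0)
    (fun _ => lenu299.symm) (fun h => absurd h (by decide)) X hX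

theorem gu301 (X : ℤ → Bool) (hX : Seq 301 4 X) : Good 301 4 X :=
  good_of_all 301 4 240 240 488 60 120 4 3 24 false vu301 wu301 Lu301 (by norm_num) (by norm_num)
    (by norm_num) (by norm_num) (by norm_num) oku301 (k1a 2 0) (k1b 22 0)
    (fun _ => lenu301.symm) (fun h => absurd h (by decide)) X hX

theorem gu303 (X : ℤ → Bool) (hX : Seq 303 4 X) : Good 303 4 X :=
  good_of_all 303 4 240 240 488 60 120 4 3 24 false vu303 wu303 Lu303 (by norm_num) (by norm_num)
    (by norm_num) (by norm_num) (by norm_num) oku303 (k7a 1 0) (k3b 23 0)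
    (fun _ => lenu303.symm) (fun h => absurd h (by decide)) X hX

end Pool.Agent.H65.CF.C4
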