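import Pool.Agent.H65.CF.C4.S10
import Pool.Agent.H65.CF.C4.S11
import Pool.Agent.H65.CF.C4.S12
import Pool.Agent.H65.CF.C4.S13
import Pool.Agent.H65.CF.C4.S14
import Pool.Agent.H65.CF.C4.S15
import Pool.Agent.H65.CF.C4.Certs
import Pool.Agent.H65.CF.Lst

/-!
# The rows give the facts about the pairs
-/

set_option autoImplicit false

namespace Pool.Agent.H65.CF.C4

open Pool.Agent.H65.CE (Seq Good)

theorem gu305 (X : ℤ → Bool) (hX : Seq 305 4 X) : Good 305 4 X :=
  good_of_all 305 4 240 240 488 60 120 4 3 24 false vu305 wu305 Lu305 (by norm_num) (by norm_num)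
    (by norm_num) (by norm_num) (by norm_num) oku305 (k1a 2 0) (k1b 22 0)
    (fun _ => lenu305.symm) (fun h => absurd h (by decide)) X hX

theorem gu307 (X : ℤ → Bool) (hX : Seq 307 4 X) : Good 307 4 X :=
  good_of_all 307 4 240 240 488 60 120 4 3 24 false vu307 wu307 Lu307 (by norm_num) (by norm_num)
    (by norm_num) (by norm_num) (by norm_num) oku307 (k7a 1 0) (k3b 23 0)
    (fun _ => lenu307.symm) (fun h => absurd h (by decide)) X hX

theorem gu309 (X : ℤ → Bool) (hX : Seq 309 4 X) : Good 309 4 X :=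
  good_of_all 309 4 240 240 488 60 120 4 3 24 false vu309 wu309 Lu309 (by norm_num) (by norm_num)
    (by norm_num) (by norm_num) (by norm_num) oku309 (k1a 2 0) (k1b 22 0)
    (fun _ => lenu309.symm) (fun h => absurd h (by decide)) X hX

theorem gu311 (X : ℤ → Bool) (hX : Seq 311 4 X) : Good 311 4 X :=
  good_of_all 311 4 240 240 488 60 120 4 3 24 false vu311 wu311 Lu311 (by norm_num) (by norm_num)
    (by norm_num) (by norm_num) (by norm_num) oku311 (k7a 1 0) (k3b 23 0)
    (fun _ => lenu311.symm) (fun h => absurd h (by decide)) X hX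

theorem gu313 (X : ℤ → Bool) (hX : Seq 313 4 X) : Good 313 4 X :=
  good_of_all 313 4 240 240 488 60 120 4 3 24 false vu313 wu313 Lu313 (by norm_num) (by norm_num)
    (by norm_num) (by norm_num) (by norm_num) oku313 (k1a 2 0) (k1b 22 0)
    (fun _ => lenu313.symm) (fun h => absurd h (by decide)) X hX

theorem gu315 (X : ℤ → Bool) (hX : Seq 315 4 X) : Good 315 4 X :=
  good_of_all 315 4 240 240 488 60 120 4 3 24 false vu315 wu315 Lu315 (by norm_num) (by norm_num)
    (by norm_num) (by norm_num) (by norm_num) oku315 (k7a 1 0) (k3b 23 0)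
    (fun _ => lenu315.symm) (fun h => absurd h (by decide)) X hX

theorem gu317 (X : ℤ → Bool) (hX : Seq 317 4 X) : Good 317 4 X :=
  good_of_all 317 4 240 240 488 60 120 4 3 24 false vu317 wu317 Lu317 (by norm_num) (by norm_num)
    (by norm_num) (by norm_num) (by norm_num) oku317 (k1a 2 0) (k1b 22 0)
    (fun _ => lenu317.symm) (fun h => absurd h (by decide)) X hX

theorem gu319 (X : ℤ → Bool) (hX : Seq 319 4 X) : Good 319 4 X :=
  good_of_all 319 4 240 240 488 60 120 4 3 24 false vu319 wu319 Lu319 (by norm_num) (by norm_num)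
    (by norm_num) (by norm_num) (by norm_num) oku319 (k7a 1 0) (k3b 23 0)
    (fun _ => lenu319.symm) (fun h => absurd h (by decide)) X hX

theorem gu321 (X : ℤ → Bool) (hX : Seq 321 4 X) : Good 321 4 X :=
  good_of_all 321 4 240 240 488 60 120 4 3 24 false vu321 wu321 Lu321 (by norm_num) (by norm_num)
    (by norm_num) (by norm_num) (by norm_num) oku321 (k1a 2 0) (k1b 22 0)
    (fun _ => lenu321.symm) (fun h => absurd h (by decide)) X hX

theorem gu323 (X : ℤ → Bool) (hX : Seq 323 4 X) : Good 323 4 X :=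
  good_of_all 323 4 240 240 488 60 120 4 3 24 false vu323 wu323 Lu323 (by norm_num) (by norm_num)
    (by norm_num) (by norm_num) (by norm_num) oku323 (k7a 1 0) (k3b 23 0)
    (fun _ => lenu323.symm) (fun h => absurd h (by decide)) X hX

theorem gu325 (X : ℤ → Bool) (hX : Seq 325 4 X) : Good 325 4 X :=
  good_of_all 325 4 240 240 488 60 120 4 3 24 false vu325 wu325 Lu325 (by norm_num) (by norm_num)
    (by norm_num) (by norm_num) (by norm_num) oku325 (k1a 2 0) (k1b 22 0)
    (fun _ => lenu325.symm) (fun h => absurd h (by decide)) X hX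

theorem gu327 (X : ℤ → Bool) (hX : Seq 327 4 X) : Good 327 4 X :=
  good_of_all 327 4 240 240 488 60 120 4 3 24 false vu327 wu327 Lu327 (by norm_num) (by norm_num)
    (by norm_num) (by norm_num) (by norm_num) oku327 (k7a 1 0) (k3b 23 0)
    (fun _ => lenu327.symm) (fun h => absurd h (by decide)) X hX

theorem gu329 (X : ℤ → Bool) (hX : Seq 329 4 X) : Good 329 4 X :=
  good_of_all 329 4 240 240 488 60 120 4 3 24 false vu329 wu329 Lu329 (by norm_num) (by norm_num)
    (by norm_num) (by norm_num) (by norm_num) oku329 (k1a 2 0) (k1b 22 0)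
    (fun _ => lenu329.symm) (fun h => absurd h (by decide)) X hX

theorem gu331 (X : ℤ → Bool) (hX : Seq 331 4 X) : Good 331 4 X :=
  good_of_all 331 4 240 240 488 60 120 4 3 24 false vu331 wu331 Lu331 (by norm_num) (by norm_num)
    (by norm_num) (by norm_num) (by norm_num) oku331 (k7a 1 0) (k3b 23 0)
    (fun _ => lenu331.symm) (fun h => absurd h (by decide)) X hX

theorem gu333 (X : ℤ → Bool) (hX : Seq 333 4 X) : Good 333 4 X :=
  good_of_all 333 4 240 240 488 60 120 4 3 24 false vu333 wu333 Lu333 (by norm_num) (by norm_num)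
    (by norm_num) (by norm_num) (by norm_num) oku333 (k1a 2 0) (k1b 22 0)
    (fun _ => lenu333.symm) (fun h => absurd h (by decide)) X hX

theorem gu335 (X : ℤ → Bool) (hX : Seq 335 4 X) : Good 335 4 X :=
  good_of_all 335 4 240 240 488 60 120 4 3 24 false vu335 wu335 Lu335 (by norm_num) (by norm_num)
    (by norm_num) (by norm_num) (by norm_num) oku335 (k7a 1 0) (k3b 23 0)
    (fun _ => lenu335.symm) (fun h => absurd h (by decide)) X hX

theorem gu337 (X : ℤ → Bool) (hX : Seq 337 4 X) : Good 337 4 X :=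
  good_of_all 337 4 240 240 488 60 120 4 3 24 false vu337 wu337 Lu337 (by norm_num) (by norm_num)
    (by norm_num) (by norm_num) (by norm_num) oku337 (k1a 2 0) (k1b 22 0)
    (fun _ => lenu337.symm) (fun h => absurd h (by decide)) X hX

theorem gu339 (X : ℤ → Bool) (hX : Seq 339 4 X) : Good 339 4 X :=
  good_of_all 339 4 240 240 488 60 120 4 3 24 false vu339 wu339 Lu339 (by norm_num) (by norm_num)
    (by norm_num) (by norm_num) (by norm_num) oku339 (k7a 1 0) (k3b 23 0)
    (fun _ => lenu339.symm) (fun h => absurd h (by decide)) X hX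

theorem gu341 (X : ℤ → Bool) (hX : Seq 341 4 X) : Good 341 4 X :=
  good_of_all 341 4 240 240 488 60 120 4 3 24 false vu341 wu341 Lu341 (by norm_num) (by norm_num)
    (by norm_num) (by norm_num) (by norm_num) oku341 (k1a 2 0) (k1b 22 0)
    (fun _ => lenu341.symm) (fun h => absurd h (by decide)) X hX

theorem gu343 (X : ℤ → Bool) (hX : Seq 343 4 X) : Good 343 4 X :=
  good_of_all 343 4 240 240 488 60 120 4 3 24 false vu343 wu343 Lu343 (by norm_num) (by norm_num)
    (by norm_num) (by norm_num) (by norm_num) oku343 (k7a 1 0) (k3b 23 0)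
    (fun _ => lenu343.symm) (fun h => absurd h (by decide)) X hX

theorem gu345 (X : ℤ → Bool) (hX : Seq 345 4 X) : Good 345 4 X :=
  good_of_all 345 4 240 240 488 60 120 4 3 24 false vu345 wu345 Lu345 (by norm_num) (by norm_num)
    (by norm_num) (by norm_num) (by norm_num) oku345 (k1a 2 0) (k1b 22 0)
    (fun _ => lenu345.symm) (fun h => absurd h (by decide)) X hX

theorem gu347 (X : ℤ → Bool) (hX : Seq 347 4 X) : Good 347 4 X :=
  good_of_all 347 4 240 240 488 60 120 4 3 24 false vu347 wu347 Lu347 (by norm_num) (by norm_num)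
    (by norm_num) (by norm_num) (by norm_num) oku347 (k7a 1 0) (k3b 23 0)
    (fun _ => lenu347.symm) (fun h => absurd h (by decide)) X hX

theorem gu349 (X : ℤ → Bool) (hX : Seq 349 4 X) : Good 349 4 X :=
  good_of_all 349 4 240 240 488 60 120 4 3 24 false vu349 wu349 Lu349 (by norm_num) (by norm_num)
    (by norm_num) (by norm_num) (by norm_num) oku349 (k1a 2 0) (k1b 22 0)
    (fun _ => lenu349.symm) (fun h => absurd h (by decide)) X hX

theorem gu351 (X : ℤ → Bool) (hX : Seq 351 4 X) : Good 351 4 X :=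
  good_of_all 351 4 240 240 488 60 120 4 3 24 false vu351 wu351 Lu351 (by norm_num) (by norm_num)
    (by norm_num) (by norm_num) (by norm_num) oku351 (k7a 1 0) (k3b 23 0)
    (fun _ => lenu351.symm) (fun h => absurd h (by decide)) X hX

theorem gu353 (X : ℤ → Bool) (hX : Seq 353 4 X) : Good 353 4 X :=
  good_of_all 353 4 240 240 488 60 120 4 3 24 false vu353 wu353 Lu353 (by norm_num) (by norm_num)
    (by norm_num) (by norm_num) (by norm_num) oku353 (k1a 2 0) (k1b 22 0)
    (fun _ => lenu353.symm) (fun h => absurd h (by decide)) X hX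

theorem gu355 (X : ℤ → Bool) (hX : Seq 355 4 X) : Good 355 4 X :=
  good_of_all 355 4 240 240 488 60 120 4 3 24 false vu355 wu355 Lu355 (by norm_num) (by norm_num)
    (by norm_num) (by norm_num) (by norm_num) oku355 (k7a 1 0) (k3b 23 0)
    (fun _ => lenu355.symm) (fun h => absurd h (by decide)) X hX

theorem gu357 (X : ℤ → Bool) (hX : Seq 357 4 X) : Good 357 4 X :=
  good_of_all 357 4 240 240 488 60 120 4 3 24 false vu357 wu357 Lu357 (by norm_num) (by norm_num)
    (by norm_num) (by norm_num) (by norm_num) oku357 (k1a 2 0) (k1b 22 0)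
    (fun _ => lenu357.symm) (fun h => absurd h (by decide)) X hX

theorem gu359 (X : ℤ → Bool) (hX : Seq 359 4 X) : Good 359 4 X :=
  good_of_all 359 4 240 240 488 60 120 4 3 24 false vu359 wu359 Lu359 (by norm_num) (by norm_num)
    (by norm_num) (by norm_num) (by norm_num) oku359 (k7a 1 0) (k3b 23 0)
    (fun _ => lenu359.symm) (fun h => absurd h (by decide)) X hX

theorem gu361 (X : ℤ → Bool) (hX : Seq 361 4 X) : Good 361 4 X :=
  good_of_all 361 4 240 240 488 60 120 4 3 24 false vu361 wu361 Lu361 (by norm_num) (by norm_num)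
    (by norm_num) (by norm_num) (by norm_num) oku361 (k1a 2 0) (k1b 22 0)
    (fun _ => lenu361.symm) (fun h => absurd h (by decide)) X hX

theorem gu363 (X : ℤ → Bool) (hX : Seq 363 4 X) : Good 363 4 X :=
  good_of_all 363 4 240 240 488 60 120 4 3 24 false vu363 wu363 Lu363 (by norm_num) (by norm_num)
    (by norm_num) (by norm_num) (by norm_num) oku363 (k7a 1 0) (k3b 23 0)
    (fun _ => lenu363.symm) (fun h => absurd h (by decide)) X hX

theorem gu365 (X : ℤ → Bool) (hX : Seq 365 4 X) : Good 365 4 X :=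
  good_of_all 365 4 240 240 488 60 120 4 3 24 false vu365 wu365 Lu365 (by norm_num) (by norm_num)
    (by norm_num) (by norm_num) (by norm_num) oku365 (k1a 2 0) (k1b 22 0)
    (fun _ => lenu365.symm) (fun h => absurd h (by decide)) X hX

theorem gu367 (X : ℤ → Bool) (hX : Seq 367 4 X) : Good 367 4 X :=
  good_of_all 367 4 240 240 488 60 120 4 3 24 false vu367 wu367 Lu367 (by norm_num) (by norm_num)
    (by norm_num) (by norm_num) (by norm_num) oku367 (k7a 1 0) (k3b 23 0)
    (fun _ => lenu367.symm) (fun h => absurd h (by decide)) X hX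

theorem gu369 (X : ℤ → Bool) (hX : Seq 369 4 X) : Good 369 4 X :=
  good_of_all 369 4 240 240 488 60 120 4 3 24 false vu369 wu369 Lu369 (by norm_num) (by norm_num)
    (by norm_num) (by norm_num) (by norm_num) oku369 (k1a 2 0) (k1b 22 0)
    (fun _ => lenu369.symm) (fun h => absurd h (by decide)) X hX

theorem gu373 (X : ℤ → Bool) (hX : Seq 373 4 X) : Good 373 4 X :=
  good_of_all 373 4 240 240 488 60 120 4 3 24 false vu373 wu373 Lu373 (by norm_num) (by norm_num)
    (by norm_num) (by norm_num) (by norm_num) oku373 (k1a 2 0) (k1b 22 0)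
    (fun _ => lenu373.symm) (fun h => absurd h (by decide)) X hX

theorem gu377 (X : ℤ → Bool) (hX : Seq 377 4 X) : Good 377 4 X :=
  good_of_all 377 4 240 240 488 60 120 4 3 24 false vu377 wu377 Lu377 (by norm_num) (by norm_num)
    (by norm_num) (by norm_num) (by norm_num) oku377 (k1a 2 0) (k1b 22 0)
    (fun _ => lenu377.symm) (fun h => absurd h (by decide)) X hX

theorem gu381 (X : ℤ → Bool) (hX : Seq 381 4 X) : Good 381 4 X :=
  good_of_all 381 4 240 240 488 60 120 4 3 24 false vu381 wu381 Lu381 (by norm_num) (by norm_num)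
    (by norm_num) (by norm_num) (by norm_num) oku381 (k1a 2 0) (k1b 22 0)
    (fun _ => lenu381.symm) (fun h => absurd h (by decide)) X hX

theorem gu385 (X : ℤ → Bool) (hX : Seq 385 4 X) : Good 385 4 X :=
  good_of_all 385 4 240 240 488 60 120 4 3 24 false vu385 wu385 Lu385 (by norm_num) (by norm_num)
    (by norm_num) (by norm_num) (by norm_num) oku385 (k1a 2 0) (k1b 22 0)
    (fun _ => lenu385.symm) (fun h => absurd h (by decide)) X hX

theorem gu389 (X : ℤ → Bool) (hX : Seq 389 4 X) : Good 389 4 X :=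
  good_of_all 389 4 240 240 488 60 120 4 3 24 false vu389 wu389 Lu389 (by norm_num) (by norm_num)
    (by norm_num) (by norm_num) (by norm_num) oku389 (k1a 2 0) (k1b 22 0)
    (fun _ => lenu389.symm) (fun h => absurd h (by decide)) X hX

end Pool.Agent.H65.CF.C4
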