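import Pool.Agent.H65.CF.C4.K1
import Pool.Agent.H65.CF.C4.K3
import Pool.Agent.H65.CF.C4.K5
import Pool.Agent.H65.CF.C4.K7
import Pool.Agent.H65.CF.C4.Certs
import Pool.Agent.H65.CF.Lst

/-!
# The rows give the facts about the pairs
-/

set_option autoImplicit false

namespace Pool.Agent.H65.CF.C4

open Pool.Agent.H65.CE (Seq Good)

theorem gc1 (u : ℕ) (h1 : 393 ≤ u) (h2 : u % 8 = 1) (hco : Nat.Coprime 4 u)
    (X : ℤ → Bool) (hX : Seq u 4 X) : Good u 4 X :=
  good_of_all u 4 240 240 488 60 120 4 3 24 true vc1 wc1 Lc1 (by omega) (by omega)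
    (by norm_num) (by norm_num) hco okc1 (k1a 2 0) (k1b 22 0)
    (fun h => absurd h (by decide)) (fun _ => by rw [lenc1]; omega) X hX

theorem gc3 (u : ℕ) (h1 : 371 ≤ u) (h2 : u % 8 = 3) (hco : Nat.Coprime 4 u)
    (X : ℤ → Bool) (hX : Seq u 4 X) : Good u 4 X :=
  good_of_all u 4 240 240 488 60 120 4 3 24 true vc3 wc3 Lc3 (by omega) (by omega)
    (by norm_num) (by norm_num) hco okc3 (k7a 1 0) (k3b 23 0)
    (fun h => absurd h (by decide)) (fun _ => by rw [lenc3]; omega) X hX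

theorem gc5 (u : ℕ) (h1 : 397 ≤ u) (h2 : u % 8 = 5) (hco : Nat.Coprime 4 u)
    (X : ℤ → Bool) (hX : Seq u 4 X) : Good u 4 X :=
  good_of_all u 4 240 240 488 60 120 4 3 24 true vc5 wc5 Lc5 (by omega) (by omega)
    (by norm_num) (by norm_num) hco okc5 (k1a 2 0) (k1b 22 0)
    (fun h => absurd h (by decide)) (fun _ => by rw [lenc5]; omega) X hX

theorem gc7 (u : ℕ) (h1 : 375 ≤ u) (h2 : u % 8 = 7) (hco : Nat.Coprime 4 u)
    (X : ℤ → Bool) (hX : Seq u 4 X) : Good u 4 X :=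
  good_of_all u 4 240 240 488 60 120 4 3 24 true vc7 wc7 Lc7 (by omega) (by omega)
    (by norm_num) (by norm_num) hco okc7 (k7a 1 0) (k3b 23 0)
    (fun h => absurd h (by decide)) (fun _ => by rw [lenc7]; omega) X hX

end Pool.Agent.H65.CF.C4
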