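import Pool.Agent.H65.CF.C4.G1
import Pool.Agent.H65.CF.C4.G2
import Pool.Agent.H65.CF.C4.G3
import Pool.Agent.H65.CF.C4.G4
import Pool.Agent.H65.CF.C4.GK
import Pool.Agent.H65.CE.G7
import Pool.Agent.H65.CE.G9
import Pool.Agent.H65.CE.G11
import Pool.Agent.H65.CE.G13
import Pool.Agent.H65.CE.G15

/-!
# The facts about the pairs for `v = 8`
-/

set_option autoImplicit false

namespace Pool.Agent.H65.CF.C4

open Pool.Agent.H65.CE (Seq Good good7 good9 good11 good13 good15)

theorem small1 (k : ℕ) (hk : k < 47) (X : ℤ → Bool) (hX : Seq (17 + 8 * k) 4 X) :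
    Good (17 + 8 * k) 4 X := by
  interval_cases k
  · exact gu17 X hX
  · exact gu25 X hX
  · exact gu33 X hX
  · exact gu41 X hX
  · exact gu49 X hX
  · exact gu57 X hX
  · exact gu65 X hX
  · exact gu73 X hX
  · exact gu81 X hX
  · exact gu89 X hX
  · exact gu97 X hX
  · exact gu105 X hX
  · exact gu113 X hX
  · exact gu121 X hX
  · exact gu129 X hX
  · exact gu137 X hX
  · exact gu145 X hX
  · exact gu153 X hX
  · exact gu161 X hX
  · exact gu169 X hX
  · exact gu177 X hX
  · exact gu185 X hX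
  · exact gu193 X hX
  · exact gu201 X hX
  · exact gu209 X hX
  · exact gu217 X hX
  · exact gu225 X hX
  · exact gu233 X hX
  · exact gu241 X hX
  · exact gu249 X hX
  · exact gu257 X hX
  · exact gu265 X hX
  · exact gu273 X hX
  · exact gu281 X hX
  · exact gu289 X hX
  · exact gu297 X hX
  · exact gu305 X hX
  · exact gu313 X hX
  · exact gu321 X hX
  · exact gu329 X hX
  · exact gu337 X hX
  · exact gu345 X hX
  · exact gu353 X hX
  · exact gu361 X hX
  · exact gu369 X hX
  · exact gu377 X hX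
  · exact gu385 X hX

theorem small3 (k : ℕ) (hk : k < 44) (X : ℤ → Bool) (hX : Seq (19 + 8 * k) 4 X) :
    Good (19 + 8 * k) 4 X := by
  interval_cases k
  · exact gu19 X hX
  · exact gu27 X hX
  · exact gu35 X hX
  · exact gu43 X hX
  · exact gu51 X hX
  · exact gu59 X hX
  · exact gu67 X hX
  · exact gu75 X hX
  · exact gu83 X hX
  · exact gu91 X hX
  · exact gu99 X hX
  · exact gu107 X hX
  · exact gu115 X hX
  · exact gu123 X hX
  · exact gu131 X hX
  · exact gu139 X hX
  · exact gu147 X hX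
  · exact gu155 X hX
  · exact gu163 X hX
  · exact gu171 X hX
  · exact gu179 X hX
  · exact gu187 X hX
  · exact gu195 X hX
  · exact gu203 X hX
  · exact gu211 X hX
  · exact gu219 X hX
  · exact gu227 X hX
  · exact gu235 X hX
  · exact gu243 X hX
  · exact gu251 X hX
  · exact gu259 X hX
  · exact gu267 X hX
  · exact gu275 X hX
  · exact gu283 X hX
  · exact gu291 X hX
  · exact gu299 X hX
  · exact gu307 X hX
  · exact gu315 X hX
  · exact gu323 X hX
  · exact gu331 X hX
  · exact gu339 X hX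
  · exact gu347 X hX
  · exact gu355 X hX
  · exact gu363 X hX

theorem small5 (k : ℕ) (hk : k < 47) (X : ℤ → Bool) (hX : Seq (21 + 8 * k) 4 X) :
    Good (21 + 8 * k) 4 X := by
  interval_cases k
  · exact gu21 X hX
  · exact gu29 X hX
  · exact gu37 X hX
  · exact gu45 X hX
  · exact gu53 X hX
  · exact gu61 X hX
  · exact gu69 X hX
  · exact gu77 X hX
  · exact gu85 X hX
  · exact gu93 X hX
  · exact gu101 X hX
  · exact gu109 X hX
  · exact gu117 X hX
  · exact gu125 X hX
  · exact gu133 X hX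
  · exact gu141 X hX
  · exact gu149 X hX
  · exact gu157 X hX
  · exact gu165 X hX
  · exact gu173 X hX
  · exact gu181 X hX
  · exact gu189 X hX
  · exact gu197 X hX
  · exact gu205 X hX
  · exact gu213 X hX
  · exact gu221 X hX
  · exact gu229 X hX
  · exact gu237 X hX
  · exact gu245 X hX
  · exact gu253 X hX
  · exact gu261 X hX
  · exact gu269 X hX
  · exact gu277 X hX
  · exact gu285 X hX
  · exact gu293 X hX
  · exact gu301 X hX
  · exact gu309 X hX
  · exact gu317 X hX
  · exact gu325 X hX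
  · exact gu333 X hX
  · exact gu341 X hX
  · exact gu349 X hX
  · exact gu357 X hX
  · exact gu365 X hX
  · exact gu373 X hX
  · exact gu381 X hX
  · exact gu389 X hX

theorem small7 (k : ℕ) (hk : k < 44) (X : ℤ → Bool) (hX : Seq (23 + 8 * k) 4 X) :
    Good (23 + 8 * k) 4 X := by
  interval_cases k
  · exact gu23 X hX
  · exact gu31 X hX
  · exact gu39 X hX
  · exact gu47 X hX
  · exact gu55 X hX
  · exact gu63 X hX
  · exact gu71 X hX
  · exact gu79 X hX
  · exact gu87 X hX
  · exact gu95 X hX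
  · exact gu103 X hX
  · exact gu111 X hX
  · exact gu119 X hX
  · exact gu127 X hX
  · exact gu135 X hX
  · exact gu143 X hX
  · exact gu151 X hX
  · exact gu159 X hX
  · exact gu167 X hX
  · exact gu175 X hX
  · exact gu183 X hX
  · exact gu191 X hX
  · exact gu199 X hX
  · exact gu207 X hX
  · exact gu215 X hX
  · exact gu223 X hX
  · exact gu231 X hX
  · exact gu239 X hX
  · exact gu247 X hX
  · exact gu255 X hX
  · exact gu263 X hX
  · exact gu271 X hX
  · exact gu279 X hX
  · exact gu287 X hX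
  · exact gu295 X hX
  · exact gu303 X hX
  · exact gu311 X hX
  · exact gu319 X hX
  · exact gu327 X hX
  · exact gu335 X hX
  · exact gu343 X hX
  · exact gu351 X hX
  · exact gu359 X hX
  · exact gu367 X hX

theorem good4 (u : ℕ) (hu : 7 ≤ u) (hodd : u % 2 = 1) (X : ℤ → Bool) (hX : Seq u 4 X) :
    Good u 4 X := by
  have hco : Nat.Coprime 4 u := by
    have h : Nat.Coprime 2 u := by
      rw [Nat.coprime_two_left, Nat.odd_iff]; exact hodd
    exact Nat.Coprime.mul_left h h
  by_cases h17 : u < 17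
  · have hc : u = 7 ∨ u = 9 ∨ u = 11 ∨ u = 13 ∨ u = 15 := by omega
    rcases hc with rfl | rfl | rfl | rfl | rfl
    · exact good7 4 (by norm_num) (by norm_num) hX
    · exact good9 4 (by norm_num) (by norm_num) hX
    · exact good11 4 (by norm_num) (by norm_num) hX
    · exact good13 4 (by norm_num) (by norm_num) hX
    · exact good15 4 (by norm_num) (by norm_num) hX
  have h8 : u % 8 = 1 ∨ u % 8 = 3 ∨ u % 8 = 5 ∨ u % 8 = 7 := by omega
  rcases h8 with h8 | h8 | h8 | h8
  · by_cases h : 393 ≤ u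
    · exact gc1 u h h8 hco X hX
    · obtain ⟨k, rfl⟩ : ∃ k, u = 17 + 8 * k := ⟨(u - 17) / 8, by omega⟩
      exact small1 k (by omega) X hX
  · by_cases h : 371 ≤ u
    · exact gc3 u h h8 hco X hX
    · obtain ⟨k, rfl⟩ : ∃ k, u = 19 + 8 * k := ⟨(u - 19) / 8, by omega⟩
      exact small3 k (by omega) X hX
  · by_cases h : 397 ≤ u
    · exact gc5 u h h8 hco X hX
    · obtain ⟨k, rfl⟩ : ∃ k, u = 21 + 8 * k := ⟨(u - 21) / 8, by omega⟩
      exact small5 k (by omega) X hX
  · by_cases h : 375 ≤ u
    · exact gc7 u h h8 hco X hX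
    · obtain ⟨k, rfl⟩ : ∃ k, u = 23 + 8 * k := ⟨(u - 23) / 8, by omega⟩
      exact small7 k (by omega) X hX

end Pool.Agent.H65.CF.C4
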