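import Pool.Agent.H65.CF.C4.S1
import Pool.Agent.H65.CF.C4.U17
import Pool.Agent.H65.CF.C4.U19
import Pool.Agent.H65.CF.C4.U21
import Pool.Agent.H65.CF.C4.U23
import Pool.Agent.H65.CF.C4.U25
import Pool.Agent.H65.CF.C4.U27
import Pool.Agent.H65.CF.C4.U29
import Pool.Agent.H65.CF.C4.U31
import Pool.Agent.H65.CF.C4.U33
import Pool.Agent.H65.CF.C4.U35
import Pool.Agent.H65.CF.C4.U37
import Pool.Agent.H65.CF.C4.U39
import Pool.Agent.H65.CF.C4.U41
import Pool.Agent.H65.CF.C4.U43
import Pool.Agent.H65.CF.C4.U45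
import Pool.Agent.H65.CF.C4.U47
import Pool.Agent.H65.CF.C4.U49
import Pool.Agent.H65.CF.C4.U51
import Pool.Agent.H65.CF.C4.U53
import Pool.Agent.H65.CF.C4.U55
import Pool.Agent.H65.CF.C4.U57
import Pool.Agent.H65.CF.C4.U59
import Pool.Agent.H65.CF.C4.U61
import Pool.Agent.H65.CF.C4.U63
import Pool.Agent.H65.CF.C4.U65
import Pool.Agent.H65.CF.C4.U67
import Pool.Agent.H65.CF.C4.U81
import Pool.Agent.H65.CF.C4.U85
import Pool.Agent.H65.CF.C4.Certs
import Pool.Agent.H65.CF.Lst

/-!
# The rows give the facts about the pairs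
-/

set_option autoImplicit false

namespace Pool.Agent.H65.CF.C4

open Pool.Agent.H65.CE (Seq Good)

theorem gu17 (X : ℤ → Bool) (hX : Seq 17 4 X) : Good 17 4 X :=
  good_of_all 17 4 423 423 854 60 120 4 3 24 false vu17 wu17 Lu17 (by norm_num) (by norm_num)
    (by norm_num) (by norm_num) (by norm_num) oku17 (ku17a 2 250) (ku17b 3 150)
    (fun _ => lenu17.symm) (fun h => absurd h (by decide)) X hX

theorem gu19 (X : ℤ → Bool) (hX : Seq 19 4 X) : Good 19 4 X :=
  good_of_all 19 4 263 263 534 60 120 4 3 24 false vu19 wu19 Lu19 (by norm_num) (by norm_num)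
    (by norm_num) (by norm_num) (by norm_num) oku19 (ku19a 1 130) (ku19b 0 60)
    (fun _ => lenu19.symm) (fun h => absurd h (by decide)) X hX

theorem gu21 (X : ℤ → Bool) (hX : Seq 21 4 X) : Good 21 4 X :=
  good_of_all 21 4 423 423 854 60 120 4 3 24 false vu21 wu21 Lu21 (by norm_num) (by norm_num)
    (by norm_num) (by norm_num) (by norm_num) oku21 (ku21a 2 280) (ku21b 9 130)
    (fun _ => lenu21.symm) (fun h => absurd h (by decide)) X hX

theorem gu23 (X : ℤ → Bool) (hX : Seq 23 4 X) : Good 23 4 X :=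
  good_of_all 23 4 343 343 694 60 120 4 3 24 false vu23 wu23 Lu23 (by norm_num) (by norm_num)
    (by norm_num) (by norm_num) (by norm_num) oku23 (ku23a 4 200) (ku23b 1 0)
    (fun _ => lenu23.symm) (fun h => absurd h (by decide)) X hX

theorem gu25 (X : ℤ → Bool) (hX : Seq 25 4 X) : Good 25 4 X :=
  good_of_all 25 4 333 333 674 60 120 4 3 24 false vu25 wu25 Lu25 (by norm_num) (by norm_num)
    (by norm_num) (by norm_num) (by norm_num) oku25 (ku25a 0 60) (ku25b 10 200)
    (fun _ => lenu25.symm) (fun h => absurd h (by decide)) X hX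

theorem gu27 (X : ℤ → Bool) (hX : Seq 27 4 X) : Good 27 4 X :=
  good_of_all 27 4 373 373 754 60 120 4 3 24 false vu27 wu27 Lu27 (by norm_num) (by norm_num)
    (by norm_num) (by norm_num) (by norm_num) oku27 (ku27a 12 180) (ku27b 0 60)
    (fun _ => lenu27.symm) (fun h => absurd h (by decide)) X hX

theorem gu29 (X : ℤ → Bool) (hX : Seq 29 4 X) : Good 29 4 X :=
  good_of_all 29 4 373 373 754 60 120 4 3 24 false vu29 wu29 Lu29 (by norm_num) (by norm_num)
    (by norm_num) (by norm_num) (by norm_num) oku29 (ku29a 0 99) (ku29b 11 230)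
    (fun _ => lenu29.symm) (fun h => absurd h (by decide)) X hX

theorem gu31 (X : ℤ → Bool) (hX : Seq 31 4 X) : Good 31 4 X :=
  good_of_all 31 4 363 363 734 60 120 4 3 24 false vu31 wu31 Lu31 (by norm_num) (by norm_num)
    (by norm_num) (by norm_num) (by norm_num) oku31 (ku31a 9 230) (ku31b 1 130)
    (fun _ => lenu31.symm) (fun h => absurd h (by decide)) X hX

theorem gu33 (X : ℤ → Bool) (hX : Seq 33 4 X) : Good 33 4 X :=
  good_of_all 33 4 383 383 774 60 120 4 3 24 false vu33 wu33 Lu33 (by norm_num) (by norm_num)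
    (by norm_num) (by norm_num) (by norm_num) oku33 (ku33a 11 230) (ku33b 12 60)
    (fun _ => lenu33.symm) (fun h => absurd h (by decide)) X hX

theorem gu35 (X : ℤ → Bool) (hX : Seq 35 4 X) : Good 35 4 X :=
  good_of_all 35 4 450 450 908 60 120 4 3 24 false vu35 wu35 Lu35 (by norm_num) (by norm_num)
    (by norm_num) (by norm_num) (by norm_num) oku35 (ku35a 7 130) (ku35b 1 280)
    (fun _ => lenu35.symm) (fun h => absurd h (by decide)) X hX

theorem gu37 (X : ℤ → Bool) (hX : Seq 37 4 X) : Good 37 4 X :=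
  good_of_all 37 4 403 403 814 60 120 4 3 24 false vu37 wu37 Lu37 (by norm_num) (by norm_num)
    (by norm_num) (by norm_num) (by norm_num) oku37 (ku37a 16 200) (ku37b 4 280)
    (fun _ => lenu37.symm) (fun h => absurd h (by decide)) X hX

theorem gu39 (X : ℤ → Bool) (hX : Seq 39 4 X) : Good 39 4 X :=
  good_of_all 39 4 333 333 674 60 120 4 3 24 false vu39 wu39 Lu39 (by norm_num) (by norm_num)
    (by norm_num) (by norm_num) (by norm_num) oku39 (ku39a 5 60) (ku39b 7 180)
    (fun _ => lenu39.symm) (fun h => absurd h (by decide)) X hX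

theorem gu41 (X : ℤ → Bool) (hX : Seq 41 4 X) : Good 41 4 X :=
  good_of_all 41 4 343 343 694 60 120 4 3 24 false vu41 wu41 Lu41 (by norm_num) (by norm_num)
    (by norm_num) (by norm_num) (by norm_num) oku41 (ku41a 21 200) (ku41b 2 100)
    (fun _ => lenu41.symm) (fun h => absurd h (by decide)) X hX

theorem gu43 (X : ℤ → Bool) (hX : Seq 43 4 X) : Good 43 4 X :=
  good_of_all 43 4 433 433 874 80 120 4 3 24 false vu43 wu43 Lu43 (by norm_num) (by norm_num)
    (by norm_num) (by norm_num) (by norm_num) oku43 (ku43a 12 280) (ku43b 6 180)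
    (fun _ => lenu43.symm) (fun h => absurd h (by decide)) X hX

theorem gu45 (X : ℤ → Bool) (hX : Seq 45 4 X) : Good 45 4 X :=
  good_of_all 45 4 433 433 874 60 120 4 3 24 false vu45 wu45 Lu45 (by norm_num) (by norm_num)
    (by norm_num) (by norm_num) (by norm_num) oku45 (ku45a 35 280) (ku45b 18 60)
    (fun _ => lenu45.symm) (fun h => absurd h (by decide)) X hX

theorem gu47 (X : ℤ → Bool) (hX : Seq 47 4 X) : Good 47 4 X :=
  good_of_all 47 4 353 353 714 60 120 4 3 24 false vu47 wu47 Lu47 (by norm_num) (by norm_num)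
    (by norm_num) (by norm_num) (by norm_num) oku47 (ku47a 10 60) (ku47b 27 230)
    (fun _ => lenu47.symm) (fun h => absurd h (by decide)) X hX

theorem gu49 (X : ℤ → Bool) (hX : Seq 49 4 X) : Good 49 4 X :=
  good_of_all 49 4 253 253 514 60 120 4 3 24 false vu49 wu49 Lu49 (by norm_num) (by norm_num)
    (by norm_num) (by norm_num) (by norm_num) oku49 (ku49a 8 130) (ku49b 30 100)
    (fun _ => lenu49.symm) (fun h => absurd h (by decide)) X hX

theorem gu51 (X : ℤ → Bool) (hX : Seq 51 4 X) : Good 51 4 X :=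
  good_of_all 51 4 433 433 874 60 120 4 3 24 false vu51 wu51 Lu51 (by norm_num) (by norm_num)
    (by norm_num) (by norm_num) (by norm_num) oku51 (ku51a 5 230) (ku51b 15 280)
    (fun _ => lenu51.symm) (fun h => absurd h (by decide)) X hX

theorem gu53 (X : ℤ → Bool) (hX : Seq 53 4 X) : Good 53 4 X :=
  good_of_all 53 4 383 383 774 60 120 4 3 24 false vu53 wu53 Lu53 (by norm_num) (by norm_num)
    (by norm_num) (by norm_num) (by norm_num) oku53 (ku53a 37 130) (ku53b 11 230)
    (fun _ => lenu53.symm) (fun h => absurd h (by decide)) X hX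

theorem gu55 (X : ℤ → Bool) (hX : Seq 55 4 X) : Good 55 4 X :=
  good_of_all 55 4 353 353 714 60 120 4 3 24 false vu55 wu55 Lu55 (by norm_num) (by norm_num)
    (by norm_num) (by norm_num) (by norm_num) oku55 (ku55a 1 100) (ku55b 15 180)
    (fun _ => lenu55.symm) (fun h => absurd h (by decide)) X hX

theorem gu57 (X : ℤ → Bool) (hX : Seq 57 4 X) : Good 57 4 X :=
  good_of_all 57 4 343 343 694 60 120 4 3 24 false vu57 wu57 Lu57 (by norm_num) (by norm_num)
    (by norm_num) (by norm_num) (by norm_num) oku57 (ku57a 6 130) (ku57b 21 200)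
    (fun _ => lenu57.symm) (fun h => absurd h (by decide)) X hX

theorem gu59 (X : ℤ → Bool) (hX : Seq 59 4 X) : Good 59 4 X :=
  good_of_all 59 4 393 393 794 60 120 4 3 24 false vu59 wu59 Lu59 (by norm_num) (by norm_num)
    (by norm_num) (by norm_num) (by norm_num) oku59 (ku59a 43 150) (ku59b 7 230)
    (fun _ => lenu59.symm) (fun h => absurd h (by decide)) X hX

theorem gu61 (X : ℤ → Bool) (hX : Seq 61 4 X) : Good 61 4 X :=
  good_of_all 61 4 373 373 754 60 120 4 3 24 false vu61 wu61 Lu61 (by norm_num) (by norm_num)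
    (by norm_num) (by norm_num) (by norm_num) oku61 (ku61a 29 200) (ku61b 7 200)
    (fun _ => lenu61.symm) (fun h => absurd h (by decide)) X hX

theorem gu63 (X : ℤ → Bool) (hX : Seq 63 4 X) : Good 63 4 X :=
  good_of_all 63 4 393 393 794 60 120 4 3 24 false vu63 wu63 Lu63 (by norm_num) (by norm_num)
    (by norm_num) (by norm_num) (by norm_num) oku63 (ku63a 13 60) (ku63b 25 250)
    (fun _ => lenu63.symm) (fun h => absurd h (by decide)) X hX

theorem gu65 (X : ℤ → Bool) (hX : Seq 65 4 X) : Good 65 4 X :=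
  good_of_all 65 4 393 393 794 60 120 4 3 24 false vu65 wu65 Lu65 (by norm_num) (by norm_num)
    (by norm_num) (by norm_num) (by norm_num) oku65 (ku65a 33 250) (ku65b 11 200)
    (fun _ => lenu65.symm) (fun h => absurd h (by decide)) X hX

theorem gu67 (X : ℤ → Bool) (hX : Seq 67 4 X) : Good 67 4 X :=
  good_of_all 67 4 333 333 674 60 120 4 3 24 false vu67 wu67 Lu67 (by norm_num) (by norm_num)
    (by norm_num) (by norm_num) (by norm_num) oku67 (ku67a 17 60) (ku67b 38 150)
    (fun _ => lenu67.symm) (fun h => absurd h (by decide)) X hX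

theorem gu69 (X : ℤ → Bool) (hX : Seq 69 4 X) : Good 69 4 X :=
  good_of_all 69 4 240 240 488 60 120 4 3 24 false vu69 wu69 Lu69 (by norm_num) (by norm_num)
    (by norm_num) (by norm_num) (by norm_num) oku69 (k1a 2 0) (k1b 22 0)
    (fun _ => lenu69.symm) (fun h => absurd h (by decide)) X hX

theorem gu71 (X : ℤ → Bool) (hX : Seq 71 4 X) : Good 71 4 X :=
  good_of_all 71 4 240 240 488 60 120 4 3 24 false vu71 wu71 Lu71 (by norm_num) (by norm_num)
    (by norm_num) (by norm_num) (by norm_num) oku71 (k7a 1 0) (k3b 23 0)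
    (fun _ => lenu71.symm) (fun h => absurd h (by decide)) X hX

theorem gu73 (X : ℤ → Bool) (hX : Seq 73 4 X) : Good 73 4 X :=
  good_of_all 73 4 240 240 488 60 120 4 3 24 false vu73 wu73 Lu73 (by norm_num) (by norm_num)
    (by norm_num) (by norm_num) (by norm_num) oku73 (k1a 2 0) (k1b 22 0)
    (fun _ => lenu73.symm) (fun h => absurd h (by decide)) X hX

theorem gu75 (X : ℤ → Bool) (hX : Seq 75 4 X) : Good 75 4 X :=
  good_of_all 75 4 240 240 488 60 120 4 3 24 false vu75 wu75 Lu75 (by norm_num) (by norm_num)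
    (by norm_num) (by norm_num) (by norm_num) oku75 (k7a 1 0) (k3b 23 0)
    (fun _ => lenu75.symm) (fun h => absurd h (by decide)) X hX

theorem gu77 (X : ℤ → Bool) (hX : Seq 77 4 X) : Good 77 4 X :=
  good_of_all 77 4 240 240 488 60 120 4 3 24 false vu77 wu77 Lu77 (by norm_num) (by norm_num)
    (by norm_num) (by norm_num) (by norm_num) oku77 (k1a 2 0) (k1b 22 0)
    (fun _ => lenu77.symm) (fun h => absurd h (by decide)) X hX

theorem gu79 (X : ℤ → Bool) (hX : Seq 79 4 X) : Good 79 4 X :=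
  good_of_all 79 4 240 240 488 60 120 4 3 24 false vu79 wu79 Lu79 (by norm_num) (by norm_num)
    (by norm_num) (by norm_num) (by norm_num) oku79 (k7a 1 0) (k3b 23 0)
    (fun _ => lenu79.symm) (fun h => absurd h (by decide)) X hX

theorem gu81 (X : ℤ → Bool) (hX : Seq 81 4 X) : Good 81 4 X :=
  good_of_all 81 4 383 383 774 60 120 4 3 24 false vu81 wu81 Lu81 (by norm_num) (by norm_num)
    (by norm_num) (by norm_num) (by norm_num) oku81 (ku81a 7 150) (ku81b 54 200)
    (fun _ => lenu81.symm) (fun h => absurd h (by decide)) X hX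

theorem gu83 (X : ℤ → Bool) (hX : Seq 83 4 X) : Good 83 4 X :=
  good_of_all 83 4 240 240 488 60 120 4 3 24 false vu83 wu83 Lu83 (by norm_num) (by norm_num)
    (by norm_num) (by norm_num) (by norm_num) oku83 (k7a 1 0) (k3b 23 0)
    (fun _ => lenu83.symm) (fun h => absurd h (by decide)) X hX

theorem gu85 (X : ℤ → Bool) (hX : Seq 85 4 X) : Good 85 4 X :=
  good_of_all 85 4 313 313 634 60 120 4 3 24 false vu85 wu85 Lu85 (by norm_num) (by norm_num)
    (by norm_num) (by norm_num) (by norm_num) oku85 (ku85a 2 100) (ku85b 65 150)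
    (fun _ => lenu85.symm) (fun h => absurd h (by decide)) X hX

theorem gu87 (X : ℤ → Bool) (hX : Seq 87 4 X) : Good 87 4 X :=
  good_of_all 87 4 240 240 488 60 120 4 3 24 false vu87 wu87 Lu87 (by norm_num) (by norm_num)
    (by norm_num) (by norm_num) (by norm_num) oku87 (k7a 1 0) (k3b 23 0)
    (fun _ => lenu87.symm) (fun h => absurd h (by decide)) X hX

theorem gu89 (X : ℤ → Bool) (hX : Seq 89 4 X) : Good 89 4 X :=
  good_of_all 89 4 240 240 488 60 120 4 3 24 false vu89 wu89 Lu89 (by norm_num) (by norm_num)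
    (by norm_num) (by norm_num) (by norm_num) oku89 (k1a 2 0) (k1b 22 0)
    (fun _ => lenu89.symm) (fun h => absurd h (by decide)) X hX

theorem gu91 (X : ℤ → Bool) (hX : Seq 91 4 X) : Good 91 4 X :=
  good_of_all 91 4 240 240 488 60 120 4 3 24 false vu91 wu91 Lu91 (by norm_num) (by norm_num)
    (by norm_num) (by norm_num) (by norm_num) oku91 (k7a 1 0) (k3b 23 0)
    (fun _ => lenu91.symm) (fun h => absurd h (by decide)) X hX

theorem gu93 (X : ℤ → Bool) (hX : Seq 93 4 X) : Good 93 4 X :=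
  good_of_all 93 4 240 240 488 60 120 4 3 24 false vu93 wu93 Lu93 (by norm_num) (by norm_num)
    (by norm_num) (by norm_num) (by norm_num) oku93 (k1a 2 0) (k1b 22 0)
    (fun _ => lenu93.symm) (fun h => absurd h (by decide)) X hX

theorem gu95 (X : ℤ → Bool) (hX : Seq 95 4 X) : Good 95 4 X :=
  good_of_all 95 4 240 240 488 60 120 4 3 24 false vu95 wu95 Lu95 (by norm_num) (by norm_num)
    (by norm_num) (by norm_num) (by norm_num) oku95 (k7a 1 0) (k3b 23 0)
    (fun _ => lenu95.symm) (fun h => absurd h (by decide)) X hX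

theorem gu97 (X : ℤ → Bool) (hX : Seq 97 4 X) : Good 97 4 X :=
  good_of_all 97 4 240 240 488 60 120 4 3 24 false vu97 wu97 Lu97 (by norm_num) (by norm_num)
    (by norm_num) (by norm_num) (by norm_num) oku97 (k1a 2 0) (k1b 22 0)
    (fun _ => lenu97.symm) (fun h => absurd h (by decide)) X hX

theorem gu99 (X : ℤ → Bool) (hX : Seq 99 4 X) : Good 99 4 X :=
  good_of_all 99 4 240 240 488 60 120 4 3 24 false vu99 wu99 Lu99 (by norm_num) (by norm_num)
    (by norm_num) (by norm_num) (by norm_num) oku99 (k7a 1 0) (k3b 23 0)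
    (fun _ => lenu99.symm) (fun h => absurd h (by decide)) X hX

theorem gu101 (X : ℤ → Bool) (hX : Seq 101 4 X) : Good 101 4 X :=
  good_of_all 101 4 300 300 608 60 120 4 3 24 false vu101 wu101 Lu101 (by norm_num) (by norm_num)
    (by norm_num) (by norm_num) (by norm_num) oku101 (k1a 2 0) (k1b 22 0)
    (fun _ => lenu101.symm) (fun h => absurd h (by decide)) X hX

theorem gu103 (X : ℤ → Bool) (hX : Seq 103 4 X) : Good 103 4 X :=
  good_of_all 103 4 240 240 488 60 120 4 3 24 false vu103 wu103 Lu103 (by norm_num) (by norm_num)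
    (by norm_num) (by norm_num) (by norm_num) oku103 (k7a 1 0) (k3b 23 0)
    (fun _ => lenu103.symm) (fun h => absurd h (by decide)) X hX

theorem gu105 (X : ℤ → Bool) (hX : Seq 105 4 X) : Good 105 4 X :=
  good_of_all 105 4 240 240 488 60 120 4 3 24 false vu105 wu105 Lu105 (by norm_num) (by norm_num)
    (by norm_num) (by norm_num) (by norm_num) oku105 (k1a 2 0) (k1b 22 0)
    (fun _ => lenu105.symm) (fun h => absurd h (by decide)) X hX

theorem gu107 (X : ℤ → Bool) (hX : Seq 107 4 X) : Good 107 4 X :=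
  good_of_all 107 4 240 240 488 60 120 4 3 24 false vu107 wu107 Lu107 (by norm_num) (by norm_num)
    (by norm_num) (by norm_num) (by norm_num) oku107 (k7a 1 0) (k3b 23 0)
    (fun _ => lenu107.symm) (fun h => absurd h (by decide)) X hX

theorem gu109 (X : ℤ → Bool) (hX : Seq 109 4 X) : Good 109 4 X :=
  good_of_all 109 4 240 240 488 60 120 4 3 24 false vu109 wu109 Lu109 (by norm_num) (by norm_num)
    (by norm_num) (by norm_num) (by norm_num) oku109 (k1a 2 0) (k1b 22 0)
    (fun _ => lenu109.symm) (fun h => absurd h (by decide)) X hX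

theorem gu111 (X : ℤ → Bool) (hX : Seq 111 4 X) : Good 111 4 X :=
  good_of_all 111 4 240 240 488 60 120 4 3 24 false vu111 wu111 Lu111 (by norm_num) (by norm_num)
    (by norm_num) (by norm_num) (by norm_num) oku111 (k7a 1 0) (k3b 23 0)
    (fun _ => lenu111.symm) (fun h => absurd h (by decide)) X hX

end Pool.Agent.H65.CF.C4
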